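import Mathlib
import Pool.Agent.R829.BH.Fin

/-!
# Canonical heights of points of bounded degree over abelian extensions

Let `K` be a number field, `f` a rational map of the projective line of degree `d ≥ 2` over `K` and
`v` a finite place of `K` above the prime number `p` at which `f` has good reduction, with residue
field of `q` elements. Let `m ≥ 1`, `B`, `D` and `a` be integers. There is a constant `κ > 0` such
that `ĥ_f(P) ≥ κ` for all wandering points `P` of `P^1(L)`, where `L` is any extension of degree at
most `D` of any finite Galois extension `E` of `K` with the following properties: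
* the ramification indices of `E` over `K` at the primes above `v` are not divisible by `p ^ a`;
* for the Frobenius elements `σ` of `Gal(E/K)` above `v` (the elements which act as `z ↦ z ^ q` on
  the residue field of a prime above `v`), `σ ^ m` has at most `B` conjugates.

The bound does not depend on the degree of `E`, and there is no condition on the residue degrees and
on the tame ramification of `E` above `v`. The second condition holds (with `m = B = 1`) for all abelian
extensions `E` of `K`, and the first one holds (with `a = 1`) if `E` is tamely ramified above `v`,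
for instance if the degree of `E` over `K` is prime to `p`. The second condition also holds (with
`B = 1`) if the local degrees of `E` above `v` divide `m`, and for composita of such extensions and
abelian ones.
-/

set_option autoImplicit false

namespace Pool.Agent.Results.MP_2194ec_nt.AbelianBogomolov

open MvPolynomial NumberField Module Filter Topology

/-- A pair of binary forms over the number field `K` has *good reduction* at the finite place `v`:
the coefficients are `v`-integral, and for some `n` the powers `X_j ^ n` of the variables are
combinations of the forms whose coefficients are polynomials with `v`-integral coefficients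
(equivalently, the reductions of the forms have no common zero over an algebraic closure of the
residue field, except zero). -/
def GoodReduction {K : Type} [Field K] [NumberField K] (v : FinitePlace K)
    (F : Fin 2 → MvPolynomial (Fin 2) K) : Prop :=
  (∀ i s, v ((F i).coeff s) ≤ 1) ∧
  ∃ (n : ℕ) (U : Fin 2 → Fin 2 → MvPolynomial (Fin 2) K),
    (∀ j i s, v ((U j i).coeff s) ≤ 1) ∧ ∀ j, X j ^ n = ∑ i, U j i * F i

/-- the map defined by a pair of forms over `K`, on coordinate vectors over an extension -/
noncomputable def evalMap {K L : Type} [Field K] [Field L] [Algebra K L]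
    (F : Fin 2 → MvPolynomial (Fin 2) K) (y : Fin 2 → L) : Fin 2 → L :=
  fun i => aeval y (F i)

/-- the point with coordinate vector `x` is wandering: its iterates are pairwise distinct points
of the projective line -/
def Wandering {K L : Type} [Field K] [Field L] [Algebra K L]
    (F : Fin 2 → MvPolynomial (Fin 2) K) (x : Fin 2 → L) : Prop :=
  ¬ ∃ m n : ℕ, m ≠ n ∧ ∃ c : L, c ≠ 0 ∧ (evalMap F)^[n] x = c • (evalMap F)^[m] x

/-- `h` is the canonical height of the point with coordinate vector `x` over the number field `L`:
the limit of `h(F^n(x)) / d ^ n`, where `h` is the absolute logarithmic Weil height, that is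
Mathlib's (relative) `Height.logHeight` divided by `[L : ℚ]` -/
def IsCanonicalHeight {K L : Type} [Field K] [Field L] [NumberField L] [Algebra K L]
    (F : Fin 2 → MvPolynomial (Fin 2) K) (d : ℕ) (x : Fin 2 → L) (h : ℝ) : Prop :=
  Tendsto (fun n : ℕ => Height.logHeight ((evalMap F)^[n] x) /
    ((finrank ℚ L : ℝ) * (d : ℝ) ^ n)) atTop (𝓝 h)

/-- `σ` is a Frobenius element of `Gal(E/K)` above the place `v` of `K`: it acts as the power
`z ↦ z ^ N(v)` modulo some prime ideal of `E` above `v` -/
def IsFrobeniusAbove {K E : Type} [Field K] [NumberField K] [Field E] [NumberField E]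
    [Algebra K E] (v : FinitePlace K) (σ : Gal(E/K)) : Prop :=
  ∃ 𝔓 : Ideal (𝓞 E), 𝔓.IsPrime ∧ 𝔓.under (𝓞 K) = v.maximalIdeal.asIdeal ∧
    ∀ z : 𝓞 E, σ • z - z ^ v.maximalIdeal.asIdeal.absNorm ∈ 𝔓

/-- **Main result.** -/
theorem result (K : Type) [Field K] [NumberField K] (d : ℕ) (hd : 2 ≤ d)
    -- the rational map, with good reduction at `v`
    (F : Fin 2 → MvPolynomial (Fin 2) K) (hF : ∀ i, (F i).IsHomogeneous d)
    (v : FinitePlace K) (hred : GoodReduction v F) (p : ℕ) (hp : p.Prime) (hpv : v (p : K) < 1)
    -- `m = B = 1` is the case of abelian extensions `E`, `a = 1` the case of tame ramification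
    (m : ℕ) (hm : 1 ≤ m) (B D a : ℕ) :
    ∃ κ : ℝ, 0 < κ ∧ ∀ (E L : Type) [Field E] [NumberField E] [Field L] [NumberField L]
      [Algebra K E] [Algebra K L] [Algebra E L] [IsScalarTower K E L] [IsGalois K E],
      (∀ σ : Gal(E/K), IsFrobeniusAbove v σ →
        (Set.range fun g : Gal(E/K) => g * σ ^ m * g⁻¹).ncard ≤ B) →
      (∀ 𝔓 : Ideal (𝓞 E), 𝔓.IsPrime → 𝔓.under (𝓞 K) = v.maximalIdeal.asIdeal →
        ¬ p ^ a ∣ 𝔓.ramificationIdx (𝓞 K)) →
      finrank E L ≤ D →
      ∀ x : Fin 2 → L, x ≠ 0 → Wandering F x →
      ∃ h : ℝ, IsCanonicalHeight F d x h ∧ κ ≤ h := by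
  obtain ⟨κ, hκ, h⟩ := R829.BH.relative_wild hd F hF v hred hp hpv hm B D a
  exact ⟨κ, hκ, fun E L _ _ _ _ _ _ _ _ _ hconj hram hD x hx hw =>
    h E L (fun σ 𝔓 h1 h2 h3 => hconj σ ⟨𝔓, h1, h2, h3⟩) hram hD x hx hw⟩

end Pool.Agent.Results.MP_2194ec_nt.AbelianBogomolov
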