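import Mathlib
import Pool.Agent.R976.MP.ProjD

/-!
# Relative Lehmer bounds over fields generated by periodic points of several maps

Let `K` be a number field, `v` a finite place of `K` above the prime number `p` and `R` a natural
number. We consider the endomorphisms `G` of the projective spaces `P^M` over `K` with `M ≤ R`, of
degrees `p ^ s` with `1 ≤ s ≤ R`, which have good, purely inseparable reduction at `v` in some
coordinates over `K` (`InseparableOver`); for instance all polynomials `X ^ (p ^ s) + p * g(X) + c`
with `g` of degree less than `p ^ s`, over the integers of `K`.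

Let `f` be a rational map over `K` of degree `p ^ r` which has *potentially* good, purely
inseparable reduction above `v`. There is a constant `C` such that the following holds. Let `E` be
a Galois extension of `K`, `N` a finite extension of `E` generated by coordinates of periodic points
of `f`, `L` a finite extension of `N`, `D = [L : N]` and `P` a wandering point of `f` in `P^1(L)`.
* If `E` is generated over `K` by coordinates of periodic points of (any number of) maps `G` as
  above, then `ĥ_f(P) ≥ exp (- C * sqrt (1 + log D)) / (C * D)`.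
* If `E` is generated over `K` by such coordinates and by elements of abelian extensions of
  `K`, then `ĥ_f(P) ≥ exp (- C * sqrt (1 + log D)) / (C * e * D)`, if the ramification indices of
  `E` over `K` at the primes above `v` are at most `e`.

The constant depends on `K`, `f`, `v` and `R` only: neither on the number of the maps `G` nor on
the maps themselves.

The point of the proof is that a bounded power of an element of the decomposition group of a prime
of `E` above `v` acts on the periodic points of `G` as an iterate of `G`. So it is central in the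
Galois group, although the maps `G` have nothing to do with each other.
-/

set_option autoImplicit false

namespace Pool.Agent.Results.MP_2194ec_nt.PeriodicCompositum

open MvPolynomial NumberField Module Filter Topology
open scoped Pointwise

/-- A pair `G` of binary forms of degree `q` over the number field `k` has *good, purely
inseparable reduction* at the finite place `v`: all coefficients are `v`-integral, those of the
monomials other than `X ^ q` and `Y ^ q` are in the maximal ideal, and the determinant of the
coefficients of `X ^ q` and `Y ^ q` is a unit at `v`. -/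
def GoodInseparable {k : Type} [Field k] [NumberField k] (v : FinitePlace k) (q : ℕ)
    (G : Fin 2 → MvPolynomial (Fin 2) k) : Prop :=
  (∀ i m, v ((G i).coeff m) ≤ 1) ∧
  (∀ i m, m ≠ Finsupp.single 0 q → m ≠ Finsupp.single 1 q → v ((G i).coeff m) < 1) ∧
  v ((G 0).coeff (Finsupp.single 0 q) * (G 1).coeff (Finsupp.single 1 q) -
    (G 0).coeff (Finsupp.single 1 q) * (G 1).coeff (Finsupp.single 0 q)) = 1

/-- The pair `F` of binary forms over `K` has *potentially good, purely inseparable reduction*
above the prime ideal `𝔭` of `K`, which contains `p`: there are a number field `K'` containing `K`,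
an invertible matrix `A` over `K'` and a pair `G` of binary forms of degree `q` over `K'` with
`A ∘ F = G ∘ A`, which has good, purely inseparable reduction at a finite place `v` of `K'` above
`𝔭`. -/
def PotentiallyInseparable {K : Type} [Field K] [NumberField K] (𝔭 : Ideal (𝓞 K)) (p q : ℕ)
    (F : Fin 2 → MvPolynomial (Fin 2) K) : Prop :=
  ∃ (K' : Type) (_ : Field K') (_ : NumberField K') (_ : Algebra K K')
    (A : Matrix (Fin 2) (Fin 2) K') (G : Fin 2 → MvPolynomial (Fin 2) K') (v : FinitePlace K'),
    A.det ≠ 0 ∧ (∀ i, (G i).IsHomogeneous q) ∧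
    (∀ i, ∑ j, C (A i j) * map (algebraMap K K') (F j) =
      bind₁ (fun k => ∑ l, C (A k l) * X l) (G i)) ∧
    v.maximalIdeal.asIdeal.under (𝓞 K) = 𝔭 ∧ v (p : K') < 1 ∧ GoodInseparable v q G

/-- A tuple `G` of `M + 1` forms of degree `q` over the number field `k` has *good, purely
inseparable reduction* at the finite place `v`: all coefficients are `v`-integral, those of the
monomials which are not of the form `X_j ^ q` are in the maximal ideal, and the determinant of the
coefficients of the `X_j ^ q` is a unit at `v`. -/
def GoodInseparableN {k : Type} [Field k] [NumberField k] {M : ℕ} (v : FinitePlace k) (q : ℕ)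
    (G : Fin (M + 1) → MvPolynomial (Fin (M + 1)) k) : Prop :=
  (∀ i m, v ((G i).coeff m) ≤ 1) ∧
  (∀ i m, (∀ j, m ≠ Finsupp.single j q) → v ((G i).coeff m) < 1) ∧
  v (Matrix.det (Matrix.of fun i j => (G i).coeff (Finsupp.single j q))) = 1

/-- The tuple `F` of forms of degree `q` over `K` has good, purely inseparable reduction at the
place `v` *in some coordinates over `K`*: there are an invertible matrix `A` over `K` and a tuple
`G` of forms of degree `q` over `K` with `A ∘ F = G ∘ A` which has good, purely inseparable
reduction at `v`. -/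
def InseparableOver {K : Type} [Field K] [NumberField K] {M : ℕ} (v : FinitePlace K) (q : ℕ)
    (F : Fin (M + 1) → MvPolynomial (Fin (M + 1)) K) : Prop :=
  (∀ i, (F i).IsHomogeneous q) ∧
  ∃ (A : Matrix (Fin (M + 1)) (Fin (M + 1)) K) (G : Fin (M + 1) → MvPolynomial (Fin (M + 1)) K),
    A.det ≠ 0 ∧ (∀ i, (G i).IsHomogeneous q) ∧
    (∀ i, ∑ j, C (A i j) * F j = bind₁ (fun l => ∑ j, C (A l j) * X j) (G i)) ∧
    GoodInseparableN v q G

/-- the map defined by a tuple of forms, on coordinate vectors over an extension -/
noncomputable def evalMapN {K L : Type} [Field K] [Field L] [Algebra K L] {M : ℕ}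
    (F : Fin (M + 1) → MvPolynomial (Fin (M + 1)) K) (y : Fin (M + 1) → L) : Fin (M + 1) → L :=
  fun i => aeval y (F i)

/-- the point with coordinate vector `y` is periodic -/
def Periodic {K L : Type} [Field K] [Field L] [Algebra K L] {M : ℕ}
    (F : Fin (M + 1) → MvPolynomial (Fin (M + 1)) K) (y : Fin (M + 1) → L) : Prop :=
  y ≠ 0 ∧ ∃ j : ℕ, 1 ≤ j ∧ ∃ c : L, c ≠ 0 ∧ (evalMapN F)^[j] y = c • y

/-- the map defined by a pair of forms, on coordinate vectors over an extension -/
noncomputable def evalMap {K L : Type} [Field K] [Field L] [Algebra K L]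
    (F : Fin 2 → MvPolynomial (Fin 2) K) (y : Fin 2 → L) : Fin 2 → L := fun i => aeval y (F i)

/-- the point with coordinate vector `x` is wandering: its iterates are pairwise distinct points
of the projective line -/
def Wandering {K L : Type} [Field K] [Field L] [Algebra K L]
    (F : Fin 2 → MvPolynomial (Fin 2) K) (x : Fin 2 → L) : Prop :=
  ¬ ∃ m n : ℕ, m ≠ n ∧ ∃ c : L, c ≠ 0 ∧ (evalMap F)^[n] x = c • (evalMap F)^[m] x

/-- `h` is the canonical height of the point with coordinate vector `x` over the number field `L`:
the limit of `h(F^n(x)) / q ^ n`, where `h` is the absolute logarithmic Weil height, that is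
Mathlib's (relative) `Height.logHeight` divided by `[L : ℚ]` -/
def IsCanonicalHeight {K L : Type} [Field K] [Field L] [NumberField L] [Algebra K L]
    (F : Fin 2 → MvPolynomial (Fin 2) K) (q : ℕ) (x : Fin 2 → L) (h : ℝ) : Prop :=
  Tendsto (fun n : ℕ => Height.logHeight ((evalMap F)^[n] x) /
    ((finrank ℚ L : ℝ) * (q : ℝ) ^ n)) atTop (𝓝 h)

/-- the elements `t` of `N` such that the point `(t : 1)` of the projective line is periodic -/
def periodicSet {K : Type} [Field K] (F : Fin 2 → MvPolynomial (Fin 2) K) (N : Type) [Field N]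
    [Algebra K N] : Set N :=
  {t | ∃ j : ℕ, 1 ≤ j ∧ ∃ c : N, c ≠ 0 ∧ (evalMap F)^[j] ![t, 1] = c • ![t, 1]}

/-- the (affine) coordinates `y i / y j` of the periodic points over `E` of all the endomorphisms
of `P^M` over `K`, `M ≤ R`, of degrees `p ^ s`, `1 ≤ s ≤ R`, with good, purely inseparable
reduction at `v` in some coordinates over `K` -/
def allPeriodic {K : Type} [Field K] [NumberField K] (v : FinitePlace K) (p R : ℕ) (E : Type)
    [Field E] [Algebra K E] : Set E :=
  {t | ∃ (M s : ℕ) (G : Fin (M + 1) → MvPolynomial (Fin (M + 1)) K) (y : Fin (M + 1) → E),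
    M ≤ R ∧ 1 ≤ s ∧ s ≤ R ∧ InseparableOver v (p ^ s) G ∧ Periodic G y ∧
    ∃ i j, y j ≠ 0 ∧ t = y i / y j}

/-- the elements of `E` on which all automorphisms over `K` commute; for a Galois extension `E` of
`K` they form the largest subfield of `E` which is an abelian extension of `K` -/
def abelianSet (K : Type) [Field K] (E : Type) [Field E] [Algebra K E] : Set E :=
  {t | ∀ σ τ : Gal(E/K), σ (τ t) = τ (σ t)}

lemma allPeriodic_eq {K : Type} [Field K] [NumberField K] (v : FinitePlace K) (p R : ℕ) (E : Type)
    [Field E] [Algebra K E] :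
    allPeriodic v p R E ⊆ Pool.Agent.R976.MP.Proj.PerGenN v p R E := by
  rintro t ⟨M, s, F, y, hM, hs, hsR, ⟨hF, A, G, hA, hG, hconj, h1, h2, h3⟩,
    ⟨-, j, hj, c, -, hper⟩, i, k, hk, rfl⟩
  refine ⟨M, F, y, hM, ⟨s, hs, hsR, hF, A, G, hA, hG, ?_, ⟨h1, h2, h3⟩⟩, ⟨j, hj, c, hper⟩,
    i, k, hk, rfl⟩
  intro i
  rw [← hconj i]
  refine Finset.sum_congr rfl fun j _ => ?_
  rw [Algebra.algebraMap_self, MvPolynomial.map_id]

lemma adjoin_mono {K E : Type} [Field K] [Field E] [Algebra K E] {S T : Set E} (h : S ⊆ T)
    (hS : Algebra.adjoin K S = ⊤) : Algebra.adjoin K T = ⊤ := by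
  rw [eq_top_iff, ← hS]
  exact Algebra.adjoin_mono h

/-- **Main result.** -/
theorem result (K : Type) [Field K] [NumberField K] (p r : ℕ) (hp : p.Prime) (hr : 1 ≤ r)
    (v : FinitePlace K) (hv : v (p : K) < 1)
    (F : Fin 2 → MvPolynomial (Fin 2) K) (hF : ∀ i, (F i).IsHomogeneous (p ^ r))
    (hred : PotentiallyInseparable v.maximalIdeal.asIdeal p (p ^ r) F) (R : ℕ) :
    ∃ C : ℝ, 0 < C ∧ ∀ (E N L : Type) [Field E] [NumberField E] [Field N] [NumberField N]
      [Field L] [NumberField L] [Algebra K E] [Algebra K N] [Algebra K L] [Algebra E N]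
      [Algebra N L] [IsScalarTower K E N] [IsScalarTower K N L] [IsGalois K E],
      Algebra.adjoin E (periodicSet F N) = ⊤ →
      ∀ x : Fin 2 → L, x ≠ 0 → Wandering F x →
      (Algebra.adjoin K (allPeriodic v p R E) = ⊤ →
        ∃ h : ℝ, IsCanonicalHeight F (p ^ r) x h ∧
          Real.exp (-(C * Real.sqrt (1 + Real.log (finrank N L)))) / (C * finrank N L) ≤ h) ∧
      (Algebra.adjoin K (abelianSet K E ∪ allPeriodic v p R E) = ⊤ →
        ∃ h : ℝ, IsCanonicalHeight F (p ^ r) x h ∧
          ∀ e : ℕ, (∀ 𝔓 : Ideal (𝓞 E), 𝔓.IsMaximal → 𝔓.LiesOver v.maximalIdeal.asIdeal →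
            𝔓.ramificationIdx (𝓞 K) ≤ e) →
            Real.exp (-(C * Real.sqrt (1 + Real.log (finrank N L)))) / (C * e * finrank N L) ≤
              h) := by
  obtain ⟨K', i1, i2, i3, A, G, v', hA, hG, hconj, hv𝔭, hv', h1, h2, h3⟩ := hred
  obtain ⟨a, ha, hcen⟩ := Pool.Agent.R976.MP.Proj.central' v hp hv R
  obtain ⟨C, hC, hmain⟩ := Pool.Agent.Y740.RL.topQ hp hr F hF K' A hA G hG hconj v' hv'
    ⟨h1, h2, h3⟩ 1 a ha
  refine ⟨C, hC, ?_⟩
  intro E N L _ _ _ _ _ _ _ _ _ _ _ _ _ _ hgen x hx hwand
  obtain ⟨hc1, hc2⟩ := hcen E
  constructor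
  · intro hE
    have hfew := hc1 (adjoin_mono (Set.subset_union_of_subset_right (allPeriodic_eq v p R E) _) hE)
    have hram := hc2 (adjoin_mono (allPeriodic_eq v p R E) hE)
    rw [show Pool.Agent.H420R3.mi v = v.maximalIdeal.asIdeal from rfl, ← hv𝔭] at hfew hram
    obtain ⟨h, hh, -, he⟩ := hmain E N L hfew hgen x hx hwand
    refine ⟨h, hh, ?_⟩
    have h4 := he 1 hram
    rwa [Nat.cast_one, mul_one] at h4
  · intro hE
    have hfew := hc1 (adjoin_mono (Set.union_subset_union_right _ (allPeriodic_eq v p R E)) hE)
    rw [show Pool.Agent.H420R3.mi v = v.maximalIdeal.asIdeal from rfl, ← hv𝔭] at hfew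
    obtain ⟨h, hh, -, he⟩ := hmain E N L hfew hgen x hx hwand
    refine ⟨h, hh, fun e hram => ?_⟩
    rw [← hv𝔭] at hram
    exact he e hram

end Pool.Agent.Results.MP_2194ec_nt.PeriodicCompositum
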