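import Mathlib
import Pool.Agent.R976.MP.ProjD

/-!
# Canonical heights on projective space over fields generated by periodic points

Let `K` be a number field, `v` a finite place of `K` above the prime number `p` and `R` a natural
number. We consider the endomorphisms `G` of the projective spaces `P^M` over `K` with `M ≤ R`, of
degrees `p ^ s` with `1 ≤ s ≤ R`, which have good, purely inseparable reduction at `v` in some
coordinates over `K` (`InseparableOver`).

Let `f` be an endomorphism of `P^N` over `K`, of degree `p ^ r`, which has *potentially* good,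
purely inseparable reduction above `v`. There is a constant `C > 0` such that the following holds
for all Galois extensions `E` of `K` and all wandering points `P` of `f` in `P^N(E)`.
* If `E` is generated over `K` by coordinates of periodic points of (any number of) maps `G` as
  above, then `ĥ_f(P) ≥ 1 / C` (which is stronger than the Lehmer inequality).
* If `E` is generated over `K` by such coordinates and by elements of abelian extensions of `K`,
  then `ĥ_f(P) ≥ 1 / (C * e)`, if the ramification indices of `E` over `K` at the primes above `v`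
  are at most `e`.

The constant depends on `K`, `f`, `v` and `R` only, neither on `E` nor on the maps `G`.
-/

set_option autoImplicit false

namespace Pool.Agent.Results.MP_2194ec_nt.ProjectiveBogomolov

open MvPolynomial NumberField Module
open Filter (Tendsto atTop)
open scoped Pointwise Topology

/-- A tuple `G` of `N + 1` forms of degree `q` over the number field `k` has *good, purely
inseparable reduction* at the finite place `v`: all coefficients are `v`-integral, those of the
monomials which are not of the form `X_j ^ q` are in the maximal ideal, and the determinant of the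
coefficients of the `X_j ^ q` is a unit at `v`. -/
def GoodInseparable {k : Type} [Field k] [NumberField k] {N : ℕ} (v : FinitePlace k) (q : ℕ)
    (G : Fin (N + 1) → MvPolynomial (Fin (N + 1)) k) : Prop :=
  (∀ i m, v ((G i).coeff m) ≤ 1) ∧
  (∀ i m, (∀ j, m ≠ Finsupp.single j q) → v ((G i).coeff m) < 1) ∧
  v (Matrix.det (Matrix.of fun i j => (G i).coeff (Finsupp.single j q))) = 1

/-- The tuple `F` of forms over `K` has *potentially good, purely inseparable reduction* above the
prime ideal `𝔭` of `K`, which contains `p`: there are a number field `K'` containing `K`, an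
invertible matrix `A` over `K'` and a tuple `G` of forms of degree `q` over `K'` with
`A ∘ F = G ∘ A`, which has good, purely inseparable reduction at a finite place `v` of `K'` above
`𝔭`. -/
def PotentiallyInseparable {K : Type} [Field K] [NumberField K] {N : ℕ} (𝔭 : Ideal (𝓞 K))
    (p q : ℕ) (F : Fin (N + 1) → MvPolynomial (Fin (N + 1)) K) : Prop :=
  ∃ (K' : Type) (_ : Field K') (_ : NumberField K') (_ : Algebra K K')
    (A : Matrix (Fin (N + 1)) (Fin (N + 1)) K')
    (G : Fin (N + 1) → MvPolynomial (Fin (N + 1)) K') (v : FinitePlace K'),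
    A.det ≠ 0 ∧ (∀ i, (G i).IsHomogeneous q) ∧
    (∀ i, ∑ j, C (A i j) * map (algebraMap K K') (F j) =
      bind₁ (fun l => ∑ j, C (A l j) * X j) (G i)) ∧
    v.maximalIdeal.asIdeal.under (𝓞 K) = 𝔭 ∧ v (p : K') < 1 ∧ GoodInseparable v q G

/-- The tuple `F` of forms of degree `q` over `K` has good, purely inseparable reduction at the
place `v` *in some coordinates over `K`*: there are an invertible matrix `A` over `K` and a tuple
`G` of forms of degree `q` over `K` with `A ∘ F = G ∘ A` which has good, purely inseparable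
reduction at `v`. -/
def InseparableOver {K : Type} [Field K] [NumberField K] {N : ℕ} (v : FinitePlace K) (q : ℕ)
    (F : Fin (N + 1) → MvPolynomial (Fin (N + 1)) K) : Prop :=
  (∀ i, (F i).IsHomogeneous q) ∧
  ∃ (A : Matrix (Fin (N + 1)) (Fin (N + 1)) K) (G : Fin (N + 1) → MvPolynomial (Fin (N + 1)) K),
    A.det ≠ 0 ∧ (∀ i, (G i).IsHomogeneous q) ∧
    (∀ i, ∑ j, C (A i j) * F j = bind₁ (fun l => ∑ j, C (A l j) * X j) (G i)) ∧
    GoodInseparable v q G

/-- the map defined by a tuple of forms, on coordinate vectors over an extension -/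
noncomputable def evalMap {K L : Type} [Field K] [Field L] [Algebra K L] {N : ℕ}
    (F : Fin (N + 1) → MvPolynomial (Fin (N + 1)) K) (y : Fin (N + 1) → L) : Fin (N + 1) → L :=
  fun i => aeval y (F i)

/-- the point with coordinate vector `x` is wandering: its iterates are pairwise distinct points
of the projective space -/
def Wandering {K L : Type} [Field K] [Field L] [Algebra K L] {N : ℕ}
    (F : Fin (N + 1) → MvPolynomial (Fin (N + 1)) K) (x : Fin (N + 1) → L) : Prop :=
  ¬ ∃ m n : ℕ, m ≠ n ∧ ∃ c : L, c ≠ 0 ∧ (evalMap F)^[n] x = c • (evalMap F)^[m] x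

/-- the point with coordinate vector `y` is periodic -/
def Periodic {K L : Type} [Field K] [Field L] [Algebra K L] {N : ℕ}
    (F : Fin (N + 1) → MvPolynomial (Fin (N + 1)) K) (y : Fin (N + 1) → L) : Prop :=
  y ≠ 0 ∧ ∃ j : ℕ, 1 ≤ j ∧ ∃ c : L, c ≠ 0 ∧ (evalMap F)^[j] y = c • y

/-- `h` is the canonical height of the point with coordinate vector `x` over the number field `L`:
the limit of `h(F^n(x)) / q ^ n`, where `h` is the absolute logarithmic Weil height, that is
Mathlib's (relative) `Height.logHeight` divided by `[L : ℚ]` -/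
def IsCanonicalHeight {K L : Type} [Field K] [Field L] [NumberField L] [Algebra K L] {N : ℕ}
    (F : Fin (N + 1) → MvPolynomial (Fin (N + 1)) K) (q : ℕ) (x : Fin (N + 1) → L) (h : ℝ) :
    Prop :=
  Tendsto (fun n : ℕ => Height.logHeight ((evalMap F)^[n] x) /
    ((finrank ℚ L : ℝ) * (q : ℝ) ^ n)) atTop (𝓝 h)

/-- the (affine) coordinates `y i / y j` of the periodic points over `E` of all the endomorphisms
of `P^M` over `K`, `M ≤ R`, of degrees `p ^ s`, `1 ≤ s ≤ R`, with good, purely inseparable
reduction at `v` in some coordinates over `K` -/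
def allPeriodic {K : Type} [Field K] [NumberField K] (v : FinitePlace K) (p R : ℕ) (E : Type)
    [Field E] [Algebra K E] : Set E :=
  {t | ∃ (M s : ℕ) (G : Fin (M + 1) → MvPolynomial (Fin (M + 1)) K) (y : Fin (M + 1) → E),
    M ≤ R ∧ 1 ≤ s ∧ s ≤ R ∧ InseparableOver v (p ^ s) G ∧ Periodic G y ∧
    ∃ i j, y j ≠ 0 ∧ t = y i / y j}

/-- the elements of `E` on which all automorphisms over `K` commute; for a Galois extension `E` of
`K` they form the largest subfield of `E` which is an abelian extension of `K` -/
def abelianSet (K : Type) [Field K] (E : Type) [Field E] [Algebra K E] : Set E :=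
  {t | ∀ σ τ : Gal(E/K), σ (τ t) = τ (σ t)}

lemma allPeriodic_sub {K : Type} [Field K] [NumberField K] (v : FinitePlace K) (p R : ℕ) (E : Type)
    [Field E] [Algebra K E] :
    allPeriodic v p R E ⊆ Pool.Agent.R976.MP.Proj.PerGenN v p R E := by
  rintro t ⟨M, s, F, y, hM, hs, hsR, ⟨hF, A, G, hA, hG, hconj, h1, h2, h3⟩,
    ⟨-, j, hj, c, -, hper⟩, i, k, hk, rfl⟩
  refine ⟨M, F, y, hM, ⟨s, hs, hsR, hF, A, G, hA, hG, ?_, ⟨h1, h2, h3⟩⟩, ⟨j, hj, c, hper⟩,
    i, k, hk, rfl⟩
  intro i
  rw [← hconj i]
  refine Finset.sum_congr rfl fun j _ => ?_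
  rw [Algebra.algebraMap_self, MvPolynomial.map_id]

lemma adjoin_mono {K E : Type} [Field K] [Field E] [Algebra K E] {S T : Set E} (h : S ⊆ T)
    (hS : Algebra.adjoin K S = ⊤) : Algebra.adjoin K T = ⊤ := by
  rw [eq_top_iff, ← hS]
  exact Algebra.adjoin_mono h

/-- **Main result.** -/
theorem result (K : Type) [Field K] [NumberField K] (p r N : ℕ) (hp : p.Prime) (hr : 1 ≤ r)
    (v : FinitePlace K) (hv : v (p : K) < 1)
    (F : Fin (N + 1) → MvPolynomial (Fin (N + 1)) K) (_hF : ∀ i, (F i).IsHomogeneous (p ^ r))
    (hred : PotentiallyInseparable v.maximalIdeal.asIdeal p (p ^ r) F) (R : ℕ) :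
    ∃ C : ℝ, 0 < C ∧ ∀ (E : Type) [Field E] [NumberField E] [Algebra K E] [IsGalois K E]
      (x : Fin (N + 1) → E), x ≠ 0 → Wandering F x →
      (Algebra.adjoin K (allPeriodic v p R E) = ⊤ →
        ∃ h : ℝ, IsCanonicalHeight F (p ^ r) x h ∧ 1 / C ≤ h) ∧
      (Algebra.adjoin K (abelianSet K E ∪ allPeriodic v p R E) = ⊤ →
        ∃ h : ℝ, IsCanonicalHeight F (p ^ r) x h ∧
          ∀ e : ℕ, (∀ 𝔓 : Ideal (𝓞 E), 𝔓.IsMaximal → 𝔓.LiesOver v.maximalIdeal.asIdeal →
            𝔓.ramificationIdx (𝓞 K) ≤ e) → 1 / (C * e) ≤ h) := by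
  obtain ⟨K', i1, i2, i3, A, G, v', hA, hG, hconj, hv𝔭, hv', h1, h2, h3⟩ := hred
  obtain ⟨a, ha, hcen⟩ := Pool.Agent.R976.MP.Proj.central' v hp hv R
  obtain ⟨C, hC, hmain⟩ := Pool.Agent.R976.MP.Proj.proj_main hp hr F A hA G hG hconj v' hv'
    ⟨h1, h2, h3⟩ ha
  refine ⟨C, hC, ?_⟩
  intro E _ _ _ _ x hx hwand
  obtain ⟨hc1, hc2⟩ := hcen E
  constructor
  · intro hE
    have hfew := hc1 (adjoin_mono (Set.subset_union_of_subset_right (allPeriodic_sub v p R E) _) hE)
    have hram := hc2 (adjoin_mono (allPeriodic_sub v p R E) hE)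
    rw [show Pool.Agent.H420R3.mi v = v.maximalIdeal.asIdeal from rfl, ← hv𝔭] at hfew hram
    obtain ⟨h, hh, he⟩ := hmain E hfew x hx hwand
    refine ⟨h, hh, ?_⟩
    have h4 := he 1 hram
    rwa [Nat.cast_one, mul_one] at h4
  · intro hE
    have hfew := hc1 (adjoin_mono (Set.union_subset_union_right _ (allPeriodic_sub v p R E)) hE)
    rw [show Pool.Agent.H420R3.mi v = v.maximalIdeal.asIdeal from rfl, ← hv𝔭] at hfew
    obtain ⟨h, hh, he⟩ := hmain E hfew x hx hwand
    refine ⟨h, hh, fun e hram => ?_⟩
    rw [← hv𝔭] at hram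
    exact he e hram

end Pool.Agent.Results.MP_2194ec_nt.ProjectiveBogomolov
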