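import Pool.Agent.R719.DS.Fin

/-!
# The dynamical Lehmer inequality over CM fields for polynomials with real Julia set

Let `f` be a monic polynomial of degree at least two with an interval `[a, b]` such that all complex
solutions of `f(z) = t` lie in `[a, b]` for all `t` in `[a, b]` (for instance `x ^ 2 - c`, `c ≥ 2`,
or the Chebyshev polynomials). We prove an analogue of a theorem of Schinzel on the map `x ^ 2`.

* Relative form. Let `K` be a CM field, `f` a polynomial over `K` which has the property above at all
  embeddings of `K`. Every algebraic integer `x` whose minimal polynomial over `K` is not fixed by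
  complex conjugation satisfies `[K(x) : K] ĥ_f(x) ≥ log (5/4) / 2`.
* Absolute form. Let `f` have integral coefficients. Every algebraic number `x` such that `ℚ(x)`
  contains a CM field (for instance an imaginary quadratic field) satisfies
  `[ℚ(x) : ℚ] ĥ_f(x) ≥ log (5/4)`. If `ℚ(x)` contains an imaginary quadratic field of discriminant
  `D`, then `[ℚ(x) : ℚ] ĥ_f(x) ≥ log (7/4)`, and even `≥ log (1 + |D|/4)` if `x` is an algebraic
  integer.

Proof. Let `g` be the minimal polynomial of `x` over `K` and `ḡ` its conjugate. On the real line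
`4 |g|² = |g + ḡ|² + |g - ḡ|²`. The geometric mean is superadditive, and the geometric mean of `|H|`
over the preimages `f^(-n)(t)` is, for suitable `t` and large `n`, at least the absolute value of the
leading coefficient of `H` up to a factor near to one. The leading coefficient of `g + ḡ` is `2`, that
of `g - ḡ` is an algebraic integer, which is divisible by the relative different of `K`.
-/

set_option autoImplicit false

namespace Pool.Agent.Results.MP_2194ec_nt.RealJuliaCM

open Polynomial NumberField Module Filter Topology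
open Pool.Agent.R719.DS

noncomputable section

/-- There is a real interval `[a, b]`, `a < b`, such that for all `t` in `[a, b]` all complex
solutions `z` of `F(z) = t` lie in `[a, b]`. -/
def RealPreimages (F : ℂ[X]) : Prop :=
  ∃ a b : ℝ, a < b ∧ ∀ t : ℝ, a ≤ t → t ≤ b → ∀ z : ℂ, F.eval z = (t : ℂ) →
    ∃ s : ℝ, a ≤ s ∧ s ≤ b ∧ z = s

/-- `h` is the canonical height of the point `x` of the number field `L` for the polynomial `f`: the
limit of `(deg f) ^ (-n)` times the absolute logarithmic Weil height of the `n`-th iterate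
`f^n(x)`. (`Height.logHeight₁` is the Weil height relative to `L`.) -/
def IsCanonicalHeight {R L : Type} [CommRing R] [Field L] [NumberField L] [Algebra R L]
    (f : R[X]) (x : L) (h : ℝ) : Prop :=
  Tendsto (fun n : ℕ => Height.logHeight₁ ((fun y : L => aeval y f)^[n] x) /
    (finrank ℚ L * (f.natDegree : ℝ) ^ n)) atTop (𝓝 h)

theorem relative {K L : Type} [Field K] [NumberField K] [IsCMField K] [Field L] [NumberField L]
    [Algebra K L] (f : K[X]) (hf : f.Monic) (hd : 2 ≤ f.natDegree)
    (hI : ∀ φ : K →+* ℂ, RealPreimages (f.map φ)) (x : L) (hB : dif (cc K) x ≠ 0) {ν : ℝ}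
    (hν : 0 < ν)
    (hn : (finrank ℚ K : ℝ) * Real.log ν ≤
      2 * Real.log |(Algebra.norm ℚ (dif (cc K) x).leadingCoeff : ℝ)|)
    (h : ℝ) (hh : IsCanonicalHeight f x h) :
    finrank ℚ K * Real.log (1 + ν / 4) / (2 * finrank ℚ L) ≤ h := by
  have h1 := main (cc K) cc_emb f hf hd hI x hB hν hn
  have hl : (0 : ℝ) < finrank ℚ L := by exact_mod_cast finrank_pos
  have hd1 : (1 : ℝ) < f.natDegree := by exact_mod_cast hd
  exact limit hl hd1 h1 hh

theorem norm_cond {K L : Type} [Field K] [NumberField K] [IsCMField K] [Field L] [NumberField L]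
    [Algebra K L] (x : L) (hx : IsIntegral ℤ x) (hB : dif (cc K) x ≠ 0) :
    (finrank ℚ K : ℝ) * Real.log 1 ≤
      2 * Real.log |(Algebra.norm ℚ (dif (cc K) x).leadingCoeff : ℝ)| := by
  rw [Real.log_one, mul_zero]
  have h1 := norm_ge_one (dif (cc K) x).leadingCoeff (int_dif _ x hx _) (leadingCoeff_ne_zero.2 hB)
  have h2 := Real.log_nonneg h1
  linarith

theorem two_le (K : Type) [Field K] [NumberField K] [IsCMField K] : 2 ≤ finrank ℚ K := by
  rw [← finrank_mul_finrank ℚ (maximalRealSubfield K) K,
    Algebra.IsQuadraticExtension.finrank_eq_two (maximalRealSubfield K) K]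
  have : 0 < finrank ℚ (maximalRealSubfield K) := finrank_pos
  omega

theorem conv {K L : Type} [Field K] [NumberField K] [Field L] [NumberField L]
    [Algebra K L] (f : ℤ[X]) (hf : f.Monic) (x : L) (h : ℝ) (hh : IsCanonicalHeight f x h) :
    IsCanonicalHeight (f.map (Int.castRingHom K)) x h := by
  unfold IsCanonicalHeight at hh ⊢
  have h1 : (fun y : L => aeval y (f.map (Int.castRingHom K))) = fun y : L => aeval y f := by
    ext y
    exact aeval_map_algebraMap (A := K) y f
  rw [hf.natDegree_map, h1]
  exact hh

theorem absolute {K L : Type} [Field K] [NumberField K] [IsCMField K] [Field L] [NumberField L]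
    [Algebra K L] (f : ℤ[X]) (hf : f.Monic) (hd : 2 ≤ f.natDegree)
    (hI : RealPreimages (f.map (Int.castRingHom ℂ))) (x : L)
    (hx : IntermediateField.adjoin ℚ {x} = ⊤) {ν : ℝ} (hν : 0 < ν)
    (hn : (finrank ℚ K : ℝ) * Real.log ν ≤
      2 * Real.log |(Algebra.norm ℚ (dif (cc K) x).leadingCoeff : ℝ)|)
    (h : ℝ) (hh : IsCanonicalHeight f x h) :
    finrank ℚ K * Real.log (1 + ν / 4) ≤ 2 * (finrank ℚ L * h) := by
  have hB := dif_ne (K := K) x hx
  have h1 := relative (f.map (Int.castRingHom K)) (hf.map _) (by rw [hf.natDegree_map]; exact hd)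
    (fun φ => by
      rw [Polynomial.map_map, RingHom.ext_int (φ.comp (Int.castRingHom K)) (Int.castRingHom ℂ)]
      exact hI) x hB hν hn h (conv f hf x h hh)
  have hl : (0 : ℝ) < finrank ℚ L := by exact_mod_cast finrank_pos
  rw [div_le_iff₀ (by positivity)] at h1
  linarith

theorem nonint' {L : Type} [Field L] [NumberField L] (f : ℤ[X]) (hf : f.Monic)
    (hd : 2 ≤ f.natDegree) (x : L) (hx : ¬ IsIntegral ℤ x) (h : ℝ) (hh : IsCanonicalHeight f x h) :
    Real.log 2 ≤ finrank ℚ L * h := by
  have hl : (0 : ℝ) < finrank ℚ L := by exact_mod_cast finrank_pos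
  have hd1 : (1 : ℝ) < f.natDegree := by exact_mod_cast hd
  have h1 := limit (k := 1) (r := 2 * Real.log 2) hl hd1
    (s := fun n => Height.logHeight₁ ((fun y : L => aeval y f)^[n] x))
    ⟨0, fun n => by
      have := nonint f hf (by omega) x hx n
      linarith⟩ hh
  rw [div_le_iff₀ (by positivity)] at h1
  linarith

/-- **Theorem.** -/
theorem result :
    (∀ (K L : Type) [Field K] [NumberField K] [IsCMField K] [Field L] [NumberField L] [Algebra K L]
      (f : K[X]), f.Monic → 2 ≤ f.natDegree → (∀ φ : K →+* ℂ, RealPreimages (f.map φ)) →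
      ∀ x : L, IsIntegral ℤ x →
      (∃ i, IsCMField.complexConj K ((minpoly K x).coeff i) ≠ (minpoly K x).coeff i) →
      ∀ h : ℝ, IsCanonicalHeight f x h → Real.log (5 / 4) / (2 * finrank K L) ≤ h) ∧
    (∀ f : ℤ[X], f.Monic → 2 ≤ f.natDegree → RealPreimages (f.map (Int.castRingHom ℂ)) →
      ∀ (K L : Type) [Field K] [NumberField K] [IsCMField K] [Field L] [NumberField L]
        [Algebra K L] (x : L), IntermediateField.adjoin ℚ {x} = ⊤ →
      ∀ h : ℝ, IsCanonicalHeight f x h →
        Real.log (5 / 4) ≤ finrank ℚ L * h ∧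
        (IsIntegral ℤ x → finrank ℚ K / 2 * Real.log (5 / 4) ≤ finrank ℚ L * h) ∧
        (finrank ℚ K = 2 → Real.log (7 / 4) ≤ finrank ℚ L * h) ∧
        (finrank ℚ K = 2 → IsIntegral ℤ x →
          Real.log (1 + |(discr K : ℝ)| / 4) ≤ finrank ℚ L * h)) ∧
    (∀ c : ℝ, 2 ≤ c → RealPreimages (X ^ 2 - C (c : ℂ))) := by
  refine ⟨?_, ?_, fun c hc => quad hc⟩
  · intro K L _ _ _ _ _ _ f hf hd hI x hx hr h hh
    have hB : dif (cc K) x ≠ 0 := by
      intro h0
      obtain ⟨i, hi⟩ := hr
      rw [dif, sub_eq_zero] at h0
      have h1 := congrArg (fun p : K[X] => p.coeff i) h0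
      simp only [coeff_map] at h1
      exact hi h1.symm
    have h1 := relative f hf hd hI x hB one_pos (norm_cond x hx hB) h hh
    have hk : (0 : ℝ) < finrank ℚ K := by exact_mod_cast finrank_pos
    have hm : (finrank ℚ L : ℝ) = finrank ℚ K * finrank K L := by
      exact_mod_cast (finrank_mul_finrank ℚ K L).symm
    have hml : (0 : ℝ) < finrank K L := by
      have : FiniteDimensional K L := FiniteDimensional.right ℚ K L
      exact_mod_cast finrank_pos
    rw [hm] at h1
    have e1 : (finrank ℚ K : ℝ) * Real.log (1 + 1 / 4) / (2 * (finrank ℚ K * finrank K L)) =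
        Real.log (5 / 4) / (2 * finrank K L) := by
      rw [show (1 : ℝ) + 1 / 4 = 5 / 4 by norm_num]
      field_simp
    rwa [e1] at h1
  · intro f hf hd hI K L _ _ _ _ _ _ x hx h hh
    have hB := dif_ne (K := K) x hx
    have hk : (2 : ℝ) ≤ finrank ℚ K := by exact_mod_cast two_le K
    have hlog : 0 < Real.log (5 / 4) := Real.log_pos (by norm_num)
    have h1 : IsIntegral ℤ x → finrank ℚ K / 2 * Real.log (5 / 4) ≤ finrank ℚ L * h := by
      intro hxi
      have h2 := absolute (K := K) f hf hd hI x hx one_pos (norm_cond x hxi hB) h hh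
      rw [show (1 : ℝ) + 1 / 4 = 5 / 4 by norm_num] at h2
      linarith
    have h3 : finrank ℚ K = 2 → IsIntegral ℤ x →
          Real.log (1 + |(discr K : ℝ)| / 4) ≤ finrank ℚ L * h := by
      intro h2 hxi
      have hD : 0 < |(discr K : ℝ)| := by
        rw [abs_pos]
        exact_mod_cast discr_ne_zero K
      have h4 : |(discr K : ℝ)| ≤
          |(Algebra.norm ℚ (dif (cc K) x).leadingCoeff : ℝ)| := by
        have h5 := leadingCoeff_ne_zero.2 hB
        have h6 : (dif (cc K) x).leadingCoeff =
            (minpoly K x).coeff (dif (cc K) x).natDegree -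
              cc K ((minpoly K x).coeff (dif (cc K) x).natDegree) := by
          conv_lhs => rw [leadingCoeff, dif, coeff_sub, coeff_map]
          rw [dif]
        rw [h6] at h5 ⊢
        exact disc_bound h2 _ (int_coeff x hxi _) h5
      have h7 := absolute (K := K) f hf hd hI x hx hD (by
        rw [h2]
        push_cast
        have := Real.log_le_log hD h4
        linarith) h hh
      rw [h2] at h7
      push_cast at h7
      linarith
    refine ⟨?_, h1, ?_, h3⟩
    · by_cases hxi : IsIntegral ℤ x
      · have h2 := h1 hxi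
        nlinarith
      · have h2 := nonint' f hf hd x hxi h hh
        have h4 : Real.log (5 / 4) ≤ Real.log 2 := Real.log_le_log (by norm_num) (by norm_num)
        linarith
    · intro h2
      by_cases hxi : IsIntegral ℤ x
      · have h4 := h3 h2 hxi
        have h5 : (3 : ℝ) ≤ |(discr K : ℝ)| := by
          have h6 := abs_discr_gt_two (K := K) (by omega)
          have h7 : (3 : ℤ) ≤ |discr K| := by omega
          exact_mod_cast h7
        have h8 : Real.log (7 / 4) ≤ Real.log (1 + |(discr K : ℝ)| / 4) :=
          Real.log_le_log (by norm_num) (by linarith)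
        linarith
      · have h4 := nonint' f hf hd x hxi h hh
        have h5 : Real.log (7 / 4) ≤ Real.log 2 := Real.log_le_log (by norm_num) (by norm_num)
        linarith

end

end Pool.Agent.Results.MP_2194ec_nt.RealJuliaCM
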